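import Pool.Agent.X307.BV.Defs

/-!
# Surfaces with `p_g = 0`: definitions
-/

open CategoryTheory AlgebraicGeometry

universe u v w

namespace Pool.Agent.X307.PG

open Pool.Agent.H914 Pool.Agent.H914.VarClass Pool.Agent.H914.VarClass.Obj Pool.Agent.W492.BB
  Pool.Agent.W550.Corr Pool.Agent.TH133 Pool.Agent.Y152.AS Pool.Agent.X307.BV

variable {k : Type u} [Field k] {𝒱 : VarClass k} {C : TheoryData.{u, v, 0} 𝒱 ℚ}

/-- The surface `S` satisfies `α × β + β × α = 0` in `CH_0(S × S)_ℚ` for all
`α, β ∈ F^2 CH_0(S)_ℚ` (equivalently `α × α = 0` for all `α ∈ F^2 CH_0(S)_ℚ`), in the form of a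
decomposition: for some self-correspondence `p ∈ CH^2(S × S)_ℚ` such that `[Δ_S] - p` is degenerate
and `p` acts as zero on `H^1(S)` and `H^3(S)` (for example the projector on the transcendental
motive of `S`), the correspondence `([Δ] + [graph of the exchange of the factors]) ∘ (p × p)` on
`S × S`, whose action on `CH_0(S × S)` is `x × y ↦ p_* x × p_* y + p_* y × p_* x`, is supported on
`(S × S) × (divisor)`. For complex surfaces the two forms are equivalent, by the theorem of Bloch
and Srinivas. -/
def SquaresVanish {K : Type w} [Field K] (H : WeilTheoryData.{u, v, w} C K) (S : 𝒱.Obj) :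
    Prop :=
  ∃ p : C.A (S.prod S), C.Deg 2 p ∧ IsDegenerate C (dg C S - p) ∧ Kills H p 1 ∧ Kills H p 3 ∧
    FactorsThroughDivisors (S.prod S)
      (C.comp (tens C p p) (dg C (S.prod S) + C.graph (sw S S)))

end Pool.Agent.X307.PG
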