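import Pool.Agent.X307.BV.Defs

/-!
# Surfaces with `p_g = 0`: definitions, part 2
-/

open CategoryTheory AlgebraicGeometry

universe u v w

namespace Pool.Agent.X307.PG

open Pool.Agent.H914 VarClass Obj Pool.Agent.W492.BB Pool.Agent.W550.Corr
open Pool.Agent.TH133 Pool.Agent.Y152.AS Pool.Agent.X307 BV

variable {k : Type u} [Field k] {𝒱 : VarClass k} {C : TheoryData.{u, v, 0} 𝒱 ℚ}

variable (C) in
/-- The surface `X` is dominated by the surface `S`, modulo degenerate correspondences: there is
`b ∈ CH^2(S × X)_ℚ` such that a rational multiple of the composition of `ᵗb` (from `X` to `S`) and of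
`b` is `[Δ_X]` modulo degenerate correspondences (for example the closure of the graph of a dominant
rational map `S ⇢ X`). -/
def Dominates (S X : 𝒱.Obj) : Prop := ∃ (b : C.A (S.prod X)) (r : ℚ), C.Deg 2 b ∧
  IsDegenerate C (r • C.comp (tp C b) b - dg C X)

variable (C) in
/-- There are finitely many automorphisms `h_i` of `S`, at least one, such that the sum of the graphs
of their squares is degenerate. For example, `S` has a finite group `G` of automorphisms of odd order
such that Bloch's conjecture holds for the quotient `S / G`: all elements of `G` are squares, and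
`∑_{g ∈ G} [g]` is degenerate. -/
def SumOfSquaresDegenerate (S : 𝒱.Obj) : Prop :=
  ∃ (n : ℕ) (h : Fin (n + 1) → (S ≅ S)),
    IsDegenerate C (∑ i, C.graph ((h i).hom ≫ (h i).hom))

end Pool.Agent.X307.PG
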