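import Pool.Agent.X307.PG.Sym
import Pool.Agent.X307.PG.Defs2

/-!
# Surfaces with `p_g = 0` dominated by surfaces which satisfy Voisin's conjecture
-/

open CategoryTheory AlgebraicGeometry

universe u v w

namespace Pool.Agent.X307.PG

open Pool.Agent.H914 Pool.Agent.H914.VarClass Pool.Agent.H914.VarClass.Obj Pool.Agent.W492.BB
  Pool.Agent.W550.Corr Pool.Agent.TH133 Pool.Agent.Y152.AS Pool.Agent.X307.BV

set_option linter.unusedSectionVars false

variable {k : Type u} [Field k] {𝒱 : VarClass k} {C : TheoryData.{u, v, 0} 𝒱 ℚ}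

variable [hC : IsChowProj C] {K : Type w} [Field K] {H : WeilTheoryData.{u, v, w} C K}
  [hH : IsWeilProj H] {S T X Y Z W U : 𝒱.Obj}

lemma dominates_self (S : 𝒱.Obj) (hd : S.dim = 2) : Dominates C S S := by
  refine ⟨dg C S, 1, dg_mem2 hd, ?_⟩
  rw [tp_dg, comp_dg, one_smul, sub_self]
  exact IsDegenerate.zero

lemma graph_comp (f : X ⟶ Y) (g : Y ⟶ Z) :
    C.comp (C.graph f) (C.graph g) = C.graph (f ≫ g) := by
  rw [comp_eq_extR, extR_graph, TheoryData.graph, ← C.push_comp, TheoryData.graph]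
  have e1 : Obj.lift (𝟙 X) f ≫ prodMap (𝟙 X) g = Obj.lift (𝟙 X) (f ≫ g) := by
    apply prod_ext <;> simp
  rw [e1]

lemma tp_graph (g : Aut X) : tp C (C.graph g.hom) = C.graph g.inv := by
  rw [tp_eq_push, TheoryData.graph, ← C.push_comp]
  have e1 : Obj.lift (𝟙 X) g.hom ≫ sw X X = g.hom ≫ Obj.lift (𝟙 X) g.inv := by
    apply prod_ext <;> simp [sw, comp_lift]
  have e2 : C.push g.hom (1 : C.A X) = 1 := by
    rw [← pull_iso C g.inv g.hom (by simp) (by simp), map_one]
  rw [e1, C.push_comp, e2]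
  rfl

lemma graph_mem2 (hd : X.dim = 2) (hd' : Y.dim = 2) (f : X ⟶ Y) :
    C.graph f ∈ C.gr (X.prod Y) 2 := by
  have h := C.push_mem (Obj.lift (𝟙 X) f) (C.one_mem X)
  have e1 : (0 : ℤ) + 1 * (((X.prod Y).dim : ℤ) - (X.dim : ℤ)) = 2 := by
    rw [dim_prod, hd, hd']; norm_num
  rwa [e1] at h

/-- congruence modulo degenerate correspondences -/
def Eqv (a b : C.A (S.prod T)) : Prop := a - b ∈ degenerate C S T

lemma Eqv.symm {a b : C.A (S.prod T)} (h : Eqv a b) : Eqv b a := by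
  have := Submodule.neg_mem _ h
  rwa [neg_sub] at this

lemma Eqv.trans {a b c : C.A (S.prod T)} (h : Eqv a b) (h' : Eqv b c) : Eqv a c := by
  have := Submodule.add_mem _ h h'
  rwa [sub_add_sub_cancel] at this

lemma Eqv.refl (a : C.A (S.prod T)) : Eqv a a := by
  rw [Eqv, sub_self]; exact Submodule.zero_mem _

lemma Eqv.of_eq {a b : C.A (S.prod T)} (h : a = b) : Eqv a b := h ▸ Eqv.refl a

lemma Eqv.comp_right (hT : T.dim = 2) {a b : C.A (S.prod T)} (h : Eqv a b)
    {c : C.A (T.prod U)} (hc : c ∈ C.gr (T.prod U) 2) : Eqv (C.comp a c) (C.comp b c) := by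
  rw [Eqv, ← Pool.Agent.W550.Corr.sub_comp]
  exact degenerate_comp_right hT h hc

lemma Eqv.comp_left (hS : S.dim = 2) (hT : T.dim = 2) {a b : C.A (T.prod U)} (h : Eqv a b)
    {c : C.A (S.prod T)} (hc : c ∈ C.gr (S.prod T) 2) : Eqv (C.comp c a) (C.comp c b) := by
  rw [Eqv, ← Pool.Agent.W550.Corr.comp_sub]
  exact degenerate_comp_left hS hT h hc

lemma Eqv.smul {a b : C.A (S.prod T)} (h : Eqv a b) (c : ℚ) : Eqv (c • a) (c • b) := by
  rw [Eqv, ← smul_sub]
  exact Submodule.smul_mem _ _ h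

lemma Eqv.of_smul {a b : C.A (S.prod T)} {c : ℚ} (hc : c ≠ 0) (h : Eqv (c • a) (c • b)) :
    Eqv a b := by
  have := h.smul c⁻¹
  rwa [smul_smul, smul_smul, inv_mul_cancel₀ hc, one_smul, one_smul] at this

/-- **Theorem.** If `S` satisfies Voisin's conjecture, squares of automorphisms act trivially on
the part of `S` which comes from a surface with `p_g = 0`. -/
theorem sq_aut (hPic : PicardRigid H) (hd : S.dim = 2) (hV : SatisfiesVoisin H S)
    {e : C.A (S.prod S)} (he : e ∈ C.gr (S.prod S) 2) (hed : HomDeg H e) (hte : tp C e = e)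
    {N : ℚ} (hN : N ≠ 0) (hee : Eqv (C.comp e e) (N • e)) (g : Aut S) :
    Eqv (C.comp (C.graph (g * g).hom) e) e := by
  have hG : ∀ g : Aut S, C.graph g.hom ∈ C.gr (S.prod S) 2 := fun g => graph_mem2 hd hd _
  have hG' : ∀ g : Aut S, C.graph g.inv ∈ C.gr (S.prod S) 2 := fun g => graph_mem2 hd hd _
  -- `G e ≡ e G⁻`
  have hA : ∀ g : Aut S, Eqv (C.comp (C.graph g.hom) e) (C.comp e (C.graph g.inv)) := by
    intro g
    have h1 := voisin_mod hPic hd hV (comp_mem2 hd hd (hG g) he) (hed.comp_left hd hd (hG g))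
    rwa [tp_comp C (ch_comm C), hte, tp_graph] at h1
  have hB : Eqv (C.comp e (C.graph g.hom)) (C.comp (C.graph g.inv) e) := (hA g⁻¹).symm
  have h1 : Eqv (C.comp (C.comp e (C.graph g.hom)) e) (N • C.comp (C.graph g.inv) e) := by
    refine (hB.comp_right hd he).trans ?_
    rw [comp_assoc]
    refine (hee.comp_left hd hd (hG' g)).trans (Eqv.of_eq ?_)
    rw [Pool.Agent.Y152.AS.comp_smul_right]
  have h2 : Eqv (C.comp (C.comp e (C.graph g.hom)) e) (N • C.comp (C.graph g.hom) e) := by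
    rw [comp_assoc]
    refine ((hA g).comp_left hd hd he).trans ?_
    rw [← comp_assoc]
    refine (hee.comp_right hd (hG' g)).trans ?_
    rw [Pool.Agent.Y152.AS.comp_smul_left]
    exact ((hA g).symm).smul N
  have h3 : Eqv (C.comp (C.graph g.inv) e) (C.comp (C.graph g.hom) e) :=
    (h1.symm.trans h2).of_smul hN
  have h4 := h3.comp_left hd hd (hG g)
  rw [← comp_assoc, ← comp_assoc, graph_comp, graph_comp, Iso.hom_inv_id] at h4
  have e1 : C.comp (C.graph (𝟙 S)) e = e := dg_comp C e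
  rw [e1] at h4
  exact h4.symm

/-- **Theorem.** Bloch's conjecture for the surfaces with `p_g = 0` dominated by `S`. -/
theorem bloch_of_dominated (hPic : PicardRigid H) (hd : S.dim = 2) (hV : SatisfiesVoisin H S)
    (hq : SumOfSquaresDegenerate C S)
    (hX : X.dim = 2) (hdom : Dominates C S X) (hpg : HomDeg H (dg C X)) :
    dg C X ∈ degenerate C X X := by
  obtain ⟨b, r, hb, hbr⟩ := hdom
  obtain ⟨n, h, hq⟩ := hq
  rcases eq_or_ne r 0 with rfl | hr
  · have h0 := Submodule.neg_mem _ hbr.mem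
    rwa [zero_smul, zero_sub, neg_neg] at h0
  obtain ⟨N, hNr⟩ : ∃ N, N = r⁻¹ := ⟨_, rfl⟩
  have hN : N ≠ 0 := by rw [hNr]; exact inv_ne_zero hr
  have hb' : tp C b ∈ C.gr (X.prod S) 2 := tp_mem C hb
  have hbN' : Eqv (C.comp (tp C b) b) (N • dg C X) := by
    have h0 : Eqv (r • C.comp (tp C b) b) (dg C X) := hbr.mem
    have h1 := h0.smul N
    rwa [smul_smul, hNr, inv_mul_cancel₀ hr, one_smul, ← hNr] at h1
  obtain ⟨e, hedef⟩ : ∃ e, e = C.comp b (tp C b) := ⟨_, rfl⟩
  have he : e ∈ C.gr (S.prod S) 2 := by rw [hedef]; exact comp_mem2 hX hd hb hb'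
  have hed : HomDeg H e := by
    have h1 : HomDeg H (C.comp (C.comp b (dg C X)) (tp C b)) :=
      (hpg.comp_left hd hX hb).comp_right hX hb'
    rwa [comp_dg, ← hedef] at h1
  have hte : tp C e = e := by rw [hedef, tp_comp C (ch_comm C), tp_tp]
  have hee : Eqv (C.comp e e) (N • e) := by
    have e1 : C.comp e e = C.comp b (C.comp (C.comp (tp C b) b) (tp C b)) := by
      rw [hedef]; simp only [comp_assoc]
    have e2 : N • e = C.comp b (C.comp (N • dg C X) (tp C b)) := by
      rw [Pool.Agent.Y152.AS.comp_smul_left, dg_comp, Pool.Agent.Y152.AS.comp_smul_right, hedef]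
    rw [e1, e2]
    exact (hbN'.comp_right hX hb').comp_left hd hX hb
  have hsq := sq_aut hPic hd hV he hed hte hN hee
  have hsq' : ∀ i, Eqv (C.comp (C.graph ((h i).hom ≫ (h i).hom)) e) e := fun i => hsq (h i)
  have hsum : Eqv (C.comp (∑ i, C.graph ((h i).hom ≫ (h i).hom)) e) (((n + 1 : ℕ) : ℚ) • e) := by
    have e1 : C.comp (∑ i, C.graph ((h i).hom ≫ (h i).hom)) e - ((n + 1 : ℕ) : ℚ) • e =
        ∑ i, (C.comp (C.graph ((h i).hom ≫ (h i).hom)) e - e) := by
      rw [Finset.sum_sub_distrib, Finset.sum_const, Finset.card_univ, Fintype.card_fin]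
      have e2 : C.comp (∑ i, C.graph ((h i).hom ≫ (h i).hom)) e =
          ∑ i, C.comp (C.graph ((h i).hom ≫ (h i).hom)) e := by
        rw [← compL_apply, map_sum, LinearMap.sum_apply]
        rfl
      rw [e2, Nat.cast_smul_eq_nsmul]
    rw [Eqv, e1]
    exact Submodule.sum_mem _ fun i _ => hsq' i
  have hc : ((n + 1 : ℕ) : ℚ) ≠ 0 := Nat.cast_ne_zero.2 (Nat.succ_ne_zero n)
  have he0 : Eqv e 0 := by
    refine Eqv.of_smul hc (hsum.symm.trans ?_)
    rw [smul_zero, Eqv, sub_zero]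
    exact degenerate_comp_right hd hq.mem he
  -- back to `X`
  have h1 : Eqv (C.comp (C.comp (tp C b) b) (C.comp (tp C b) b)) ((N * N) • dg C X) := by
    refine (hbN'.comp_right hX (comp_mem2 hd hX hb' hb)).trans ?_
    rw [Pool.Agent.Y152.AS.comp_smul_left, dg_comp, mul_smul]
    exact hbN'.smul N
  have h2 : Eqv (C.comp (C.comp (tp C b) b) (C.comp (tp C b) b)) 0 := by
    have e1 : C.comp (C.comp (tp C b) b) (C.comp (tp C b) b) =
        C.comp (tp C b) (C.comp e b) := by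
      rw [hedef]; simp only [comp_assoc]
    rw [e1, Eqv, sub_zero]
    rw [Eqv, sub_zero] at he0
    exact degenerate_comp_left hX hd (degenerate_comp_right hd he0 hb) hb'
  have h3 : Eqv (dg C X) 0 := by
    refine Eqv.of_smul (mul_ne_zero hN hN) (h1.symm.trans ?_)
    rw [smul_zero]
    exact h2
  rwa [Eqv, sub_zero] at h3

theorem main (hPic : PicardRigid H) :
    (∀ S X : 𝒱.Obj, S.dim = 2 → X.dim = 2 → SatisfiesVoisin H S → SumOfSquaresDegenerate C S →
      Dominates C S X → IsHomDegenerate H (dg C X) →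
        IsDegenerate C (dg C X)) ∧
    (∀ X : 𝒱.Obj, X.dim = 2 → SumOfSquaresDegenerate C X → IsHomDegenerate H (dg C X) →
      (IsDegenerate C (dg C X) ↔ SatisfiesVoisin H X)) := by
  refine ⟨?_, ?_⟩
  · intro S X hS hX hV hq hdom hpg
    exact isDegenerate_iff.2 (bloch_of_dominated hPic hS hV hq hX hdom hpg.homDeg)
  · intro X hX hq hpg
    exact ⟨fun h => voisin_of_bloch h.mem, fun h =>
      isDegenerate_iff.2 (bloch_of_dominated hPic hX h hq hX (dominates_self X hX) hpg.homDeg)⟩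

end Pool.Agent.X307.PG
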