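import Pool.Agent.X307.BV.Main
import Pool.Agent.Y152.AS.Sq

/-!
# Surfaces with `p_g = 0`: the exchange operators modulo degenerate correspondences
-/

open CategoryTheory AlgebraicGeometry

universe u v w

namespace Pool.Agent.X307.PG

open Pool.Agent.H914 Pool.Agent.H914.VarClass Pool.Agent.H914.VarClass.Obj Pool.Agent.W492.BB
  Pool.Agent.W550.Corr Pool.Agent.TH133 Pool.Agent.Y152.AS Pool.Agent.X307.BV

set_option linter.unusedSectionVars false

variable {k : Type u} [Field k] {𝒱 : VarClass k} {C : TheoryData.{u, v, 0} 𝒱 ℚ}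
  [hC : IsChowProj C] {K : Type w} [Field K] {H : WeilTheoryData.{u, v, w} C K}
  [hH : IsWeilProj H] {S T X Y Z W U : 𝒱.Obj}

/-- A correspondence which factors through divisors, applied twice to a homologically trivial class
of codimension two, with a correspondence in between which kills `H^3`. -/
theorem key (hPic : PicardRigid H) (hU : U.dim = 4) {Φ P : C.A (U.prod U)}
    (hΦ : FactorsThroughDivisors U Φ) (hP : C.Deg 4 P)
    (hP3 : ∀ x ∈ H.gr U 3, H.act (H.cl P) x = 0) {b : C.A U} (hb2 : b ∈ C.gr U 2)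
    (hbcl : H.cl b = 0) : C.act Φ (C.act P (C.act Φ b)) = 0 := by
  obtain ⟨n, Y, Γ, Δ, hY, hΦ⟩ := hΦ
  have hact2 : ∀ a, C.act Φ a = ∑ i, C.act (Δ i) (C.act (Γ i) a) := by
    intro a
    rw [hΦ, act_sum]
    exact Finset.sum_congr rfl fun i _ => C.act_comp _ _ _
  rw [hact2]
  apply Finset.sum_eq_zero
  intro j _
  rw [hact2, act_map_sum, act_map_sum]
  have hz : ∀ i, C.act (Γ j) (C.act P (C.act (Δ i) (C.act (Γ i) b))) = 0 := by
    intro i
    obtain ⟨hYi, hΓi, hΔi⟩ := hY i
    obtain ⟨hYj, hΓj, hΔj⟩ := hY j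
    have hYi3 : (Y i).dim = 3 := by omega
    have hYj3 : (Y j).dim = 3 := by omega
    rw [← C.act_comp, ← C.act_comp]
    apply hPic (Y i) (Y j)
    · have m1 := comp_mem C (e := 0) (e' := -1) (Γ := P) (Δ := Γ j)
        (deg_cast (by rw [hU]; norm_num) hP)
        (deg_cast (by rw [hYj3, hU]; norm_num) hΓj)
      have m2 := comp_mem C (e := 1) (e' := 0 + -1) (Γ := Δ i)
        (Δ := C.comp P (Γ j))
        (by rw [hYi3]; exact deg_cast (by rw [hU]; norm_num) hΔi) m1
      exact deg_cast (by norm_num) m2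
    · intro x hx
      rw [actH_comp, actH_comp]
      have m1 := actH_deg (H := H) (e := 1) (Γ := Δ i)
        (by rw [hYi3]; exact deg_cast (by rw [hU]; norm_num) hΔi) hx
      rw [hP3 _ (by
        have e2 : (1 : ℤ) + 2 * 1 = 3 := by norm_num
        rw [e2] at m1
        exact m1), TheoryData.act_map_zero]
    · have m1 := act_mem' C (e := -1) (Γ := Γ i) (deg_cast (by rw [hYi3, hU]; norm_num) hΓi)
        hb2
      exact deg_cast (by norm_num) m1
    · rw [TheoryData.act, H.cl_push, map_mul, H.cl_pull, hbcl, map_zero, mul_zero, map_zero]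
  rw [Finset.sum_congr rfl fun i _ => hz i, Finset.sum_const_zero, C.act_map_zero]

/-- degenerate correspondences are closed under rational multiples -/
lemma isDegenerate_smul {W : C.A (S.prod T)} (h : IsDegenerate C W) (c : ℚ) :
    IsDegenerate C (c • W) := by
  induction h with
  | zero => rw [smul_zero]; exact IsDegenerate.zero
  | left Y Γ Δ hY h1 h2 =>
    rw [← Pool.Agent.Y152.AS.comp_smul_left]
    exact IsDegenerate.left Y _ Δ hY (Submodule.smul_mem _ _ h1) h2
  | right Y Γ Δ hY h1 h2 =>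
    rw [← Pool.Agent.Y152.AS.comp_smul_left]
    exact IsDegenerate.right Y _ Δ hY (Submodule.smul_mem _ _ h1) h2
  | add Z W _ _ h1 h2 => rw [smul_add]; exact IsDegenerate.add _ _ h1 h2

lemma isDegenerate_iff {W : C.A (S.prod T)} : IsDegenerate C W ↔ W ∈ degenerate C S T := by
  refine ⟨fun h => h.mem, fun h => ?_⟩
  induction h using Submodule.span_induction with
  | mem x hx =>
    obtain ⟨Y, Γ, Δ, hY, hd | hd, rfl⟩ := hx
    · exact IsDegenerate.left Y Γ Δ hY hd.1 hd.2
    · exact IsDegenerate.right Y Γ Δ hY hd.1 hd.2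
  | zero => exact IsDegenerate.zero
  | add x y _ _ hx hy => exact IsDegenerate.add _ _ hx hy
  | smul c x _ hx => exact isDegenerate_smul hx c

section

variable (hd : S.dim = 2) {p : C.A (S.prod S)} (hp : C.Deg 2 p)
  (hdeg : IsDegenerate C (dg C S - p))

include hd hp hdeg in
/-- the operator `p × p` is the identity modulo degenerate correspondences -/
lemma P_mod {a : C.A (S.prod S)} (ha : a ∈ C.gr (S.prod S) 2) :
    a - C.act (tens C p p) a ∈ degenerate C S S := by
  rw [tens_eq_comp]
  have e1 : a - C.comp (C.comp (tp C p) a) p =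
      C.comp (dg C S - tp C p) a + C.comp (C.comp (tp C p) a) (dg C S - p) := by
    rw [Pool.Agent.W550.Corr.comp_sub, Pool.Agent.W550.Corr.sub_comp, comp_dg, dg_comp]
    abel
  rw [e1]
  refine Submodule.add_mem _ ?_ ?_
  · refine degenerate_comp_right hd ?_ ha
    have h1 := degenerate_tp hdeg.mem
    rwa [tp_sub, tp_dg] at h1
  · exact degenerate_comp_left hd hd hdeg.mem (comp_mem2 hd hd (tp_mem C hp) ha)

end

end Pool.Agent.X307.PG
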