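import Pool.Agent.X307.PG.Key
import Pool.Agent.X307.PG.Defs

/-!
# Surfaces with `p_g = 0`: vanishing symmetric or antisymmetric products of zero-cycles
-/

open CategoryTheory AlgebraicGeometry

universe u v w

namespace Pool.Agent.X307.PG

open Pool.Agent.H914 Pool.Agent.H914.VarClass Pool.Agent.H914.VarClass.Obj Pool.Agent.W492.BB
  Pool.Agent.W550.Corr Pool.Agent.TH133 Pool.Agent.Y152.AS Pool.Agent.X307.BV

set_option linter.unusedSectionVars false

variable {k : Type u} [Field k] {𝒱 : VarClass k} {C : TheoryData.{u, v, 0} 𝒱 ℚ}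

variable [hC : IsChowProj C] {K : Type w} [Field K] {H : WeilTheoryData.{u, v, w} C K}
  [hH : IsWeilProj H] {S T X Y Z W U : 𝒱.Obj}

/-- the general statement, with a sign -/
theorem sign_mod (hPic : PicardRigid H) (hd : S.dim = 2) {ε : ℚ} (hε : ε * ε = 1)
    {p : C.A (S.prod S)} (hp : C.Deg 2 p) (hdeg : IsDegenerate C (dg C S - p))
    (h1 : Kills H p 1) (h3 : Kills H p 3)
    (hΦ : FactorsThroughDivisors (S.prod S)
      (C.comp (tens C p p) (dg C (S.prod S) + ε • C.graph (sw S S))))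
    {Z : C.A (S.prod S)} (hZ : Z ∈ C.gr (S.prod S) 2) (hZd : HomDeg H Z) :
    Z + ε • tp C Z ∈ degenerate C S S := by
  obtain ⟨W, hW, hcl⟩ := hZd
  have hW2 : W ∈ C.gr (S.prod S) 2 := degenerate_le hd hW
  obtain ⟨b, hb⟩ : ∃ b, b = Z - W := ⟨_, rfl⟩
  have hb2 : b ∈ C.gr (S.prod S) 2 := by rw [hb]; exact Submodule.sub_mem _ hZ hW2
  have hbcl : H.cl b = 0 := by rw [hb, map_sub, hcl, sub_self]
  have hU : (S.prod S).dim = 4 := by rw [dim_prod, hd]
  obtain ⟨Φ, hΦ'⟩ : ∃ Φ : C.A ((S.prod S).prod (S.prod S)),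
    Φ = C.comp (tens C p p) (dg C (S.prod S) + ε • C.graph (sw S S)) := ⟨_, rfl⟩
  rw [← hΦ'] at hΦ
  have hact : ∀ a, C.act Φ a =
      C.act (tens C p p) a + ε • tp C (C.act (tens C p p) a) := by
    intro a
    rw [hΦ', C.act_comp, C.act_add, act_dg, Pool.Agent.Y152.AS.act_smul, C.act_graph, tp_eq_push]
  have hk := key hPic hU hΦ (tens_mem C hp hp : C.Deg 4 (tens C p p))
    (fun x hx => tens_kills h1 h3 hx) hb2 hbcl
  -- modulo degenerate correspondences
  have m1 : C.act (tens C p p) b ∈ C.gr (S.prod S) 2 := tens_mem' hd hp hb2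
  have m2 : C.act Φ b ∈ C.gr (S.prod S) 2 := by
    rw [hact]
    exact Submodule.add_mem _ m1 (Submodule.smul_mem _ _ (tp_mem C m1))
  have m3 : C.act (tens C p p) (C.act Φ b) ∈ C.gr (S.prod S) 2 := tens_mem' hd hp m2
  have q1 := P_mod hd hp hdeg hb2
  have q2 := P_mod hd hp hdeg m2
  have q3 := P_mod hd hp hdeg m3
  have t1 := degenerate_tp q1
  have t3 := degenerate_tp q3
  have t2 := degenerate_tp q2
  rw [tp_sub] at t1 t3 t2
  rw [hact (C.act (tens C p p) _)] at hk
  obtain ⟨a1, ha1⟩ : ∃ a1, a1 = C.act (tens C p p) b := ⟨_, rfl⟩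
  obtain ⟨a2, ha2⟩ : ∃ a2, a2 = C.act (tens C p p) (C.act Φ b) := ⟨_, rfl⟩
  obtain ⟨a3, ha3⟩ : ∃ a3, a3 = C.act (tens C p p) a2 := ⟨_, rfl⟩
  have e1 := hact b
  rw [← ha2] at hk q2 q3 t2 t3
  rw [← ha3] at hk q3 t3
  rw [← ha1] at e1 q1 t1
  have e2 : tp C (C.act Φ b) = tp C a1 + ε • a1 := by
    rw [e1, tp_add, tp_smul, tp_tp]
  -- `0 = a3 + ε tp a3 ≡ a2 + ε tp a2 ≡ Φ b + ε tp (Φ b) = 2 (a1 + ε tp a1) ≡ 2 (b + ε tp b)`
  have f1 : a2 + ε • tp C a2 ∈ degenerate C S S := by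
    have : a2 + ε • tp C a2 = (a2 - a3) + ε • (tp C a2 - tp C a3) := by
      have h0 : a2 + ε • tp C a2 = (a2 - a3) + ε • (tp C a2 - tp C a3) + (a3 + ε • tp C a3) := by
        rw [smul_sub]; abel
      rw [h0, hk, add_zero]
    rw [this]
    exact Submodule.add_mem _ q3 (Submodule.smul_mem _ _ t3)
  have f2 : C.act Φ b + ε • tp C (C.act Φ b) ∈ degenerate C S S := by
    have : C.act Φ b + ε • tp C (C.act Φ b) = (C.act Φ b - a2) +
        ε • (tp C (C.act Φ b) - tp C a2) + (a2 + ε • tp C a2) := by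
      rw [smul_sub]; abel
    rw [this]
    exact Submodule.add_mem _ (Submodule.add_mem _ q2 (Submodule.smul_mem _ _ t2)) f1
  have f3 : (2 : ℚ) • (a1 + ε • tp C a1) ∈ degenerate C S S := by
    have : (2 : ℚ) • (a1 + ε • tp C a1) = C.act Φ b + ε • tp C (C.act Φ b) := by
      rw [e2, e1, smul_add, smul_add, smul_smul ε ε, hε, one_smul, two_smul, two_smul]
      abel
    rw [this]
    exact f2
  have f4 : a1 + ε • tp C a1 ∈ degenerate C S S := by
    have := Submodule.smul_mem _ (1 / 2 : ℚ) f3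
    rwa [smul_smul, show (1 / 2 : ℚ) * 2 = 1 by norm_num, one_smul] at this
  have f5 : b + ε • tp C b ∈ degenerate C S S := by
    have : b + ε • tp C b = (b - a1) + ε • (tp C b - tp C a1) + (a1 + ε • tp C a1) := by
      rw [smul_sub]; abel
    rw [this]
    exact Submodule.add_mem _ (Submodule.add_mem _ q1 (Submodule.smul_mem _ _ t1)) f4
  have f6 : Z + ε • tp C Z = (b + ε • tp C b) + (W + ε • tp C W) := by
    rw [hb, tp_sub, smul_sub]; abel
  rw [f6]
  exact Submodule.add_mem _ f5 (Submodule.add_mem _ hW (Submodule.smul_mem _ _ (degenerate_tp hW)))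

/-- If squares of zero-cycles vanish then `Z + ᵗZ` is degenerate for all homologically degenerate
`Z`. -/
theorem squares_mod (hPic : PicardRigid H) (hd : S.dim = 2) (hV : SquaresVanish H S)
    {Z : C.A (S.prod S)} (hZ : Z ∈ C.gr (S.prod S) 2) (hZd : HomDeg H Z) :
    Z + tp C Z ∈ degenerate C S S := by
  obtain ⟨p, hp, hdeg, h1, h3, hΦ⟩ := hV
  have := sign_mod hPic hd (ε := 1) (by norm_num) hp hdeg h1 h3 (by rwa [one_smul]) hZ hZd
  rwa [one_smul] at this

/-- If `S` satisfies Voisin's conjecture then `Z - ᵗZ` is degenerate for all homologically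
degenerate `Z`. -/
theorem voisin_mod (hPic : PicardRigid H) (hd : S.dim = 2) (hV : SatisfiesVoisin H S)
    {Z : C.A (S.prod S)} (hZ : Z ∈ C.gr (S.prod S) 2) (hZd : HomDeg H Z) :
    Z - tp C Z ∈ degenerate C S S := by
  obtain ⟨p, hp, hdeg, h1, h3, hΦ⟩ := hV
  have := sign_mod hPic hd (ε := -1) (by norm_num) hp hdeg h1 h3
    (by rwa [neg_one_smul, ← sub_eq_add_neg]) hZ hZd
  rwa [neg_one_smul, ← sub_eq_add_neg] at this

/-- **Squares of zero-cycles and Bloch's conjecture.** -/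
theorem bloch_of_squares (hPic : PicardRigid H) (hd : S.dim = 2) (hV : SquaresVanish H S)
    (hpg : HomDeg H (dg C S)) : dg C S ∈ degenerate C S S := by
  have h := squares_mod hPic hd hV (dg_mem2 hd) hpg
  rw [tp_dg, ← two_smul ℚ] at h
  have := Submodule.smul_mem _ (1 / 2 : ℚ) h
  rwa [smul_smul, show (1 / 2 : ℚ) * 2 = 1 by norm_num, one_smul] at this

omit hH in
lemma kills_zero (m : ℤ) [IsWeilProj H] : Kills H (0 : C.A (S.prod S)) m := by
  intro a _
  rw [map_zero, TheoryData.act_zero]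

omit hH in
lemma factors_zero {U : 𝒱.Obj} : FactorsThroughDivisors U (0 : C.A (U.prod U)) :=
  ⟨0, fun i => i.elim0, fun i => i.elim0, fun i => i.elim0, fun i => i.elim0, by simp⟩

/-- Bloch's conjecture for `S` implies the vanishing of all products. -/
theorem squares_of_bloch (h : dg C S ∈ degenerate C S S) : SquaresVanish H S := by
  refine ⟨0, Submodule.zero_mem _, ?_, kills_zero 1, kills_zero 3, ?_⟩
  · rw [sub_zero]; exact isDegenerate_iff.2 h
  · rw [tens_zero_left, zero_comp]; exact factors_zero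

theorem voisin_of_bloch (h : dg C S ∈ degenerate C S S) : SatisfiesVoisin H S := by
  refine ⟨0, Submodule.zero_mem _, ?_, kills_zero 1, kills_zero 3, ?_⟩
  · rw [sub_zero]; exact isDegenerate_iff.2 h
  · rw [tens_zero_left, zero_comp]; exact factors_zero

end Pool.Agent.X307.PG
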